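import Pool.Agent.Q229.UM.Fin

/-!
# Unidirectional maintenance scheduling with unevenly spaced parallel train paths is polynomial

Shearing the plane turns a job into an interval of fixed length whose left end may be chosen in an
interval `[A, B]`; a kept path is a point outside of the chosen closed intervals.  A set of kept
paths is possible if and only if every job fits into one of the gaps between consecutive kept
paths (with two sentinels).  The dynamic program stores, for every pair `(u, v)` of candidate
points, a longest list of points from `u` to `v` whose gaps serve all jobs relevant to `(u, v)`, and
joins two such lists at the gap which serves a longest relevant job.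
-/

namespace Pool.Agent.Results.MP_2ca8f5_lc.UnevenSpacingPolyTime

open Pool.Agent.NPC Q229.UM

/-- **Polynomial-time algorithm.**  There is a polynomial-time computable function on bit strings
which maps the encoding of every instance (corridor length, travel time, arbitrary increasing start
times of the paths, jobs; all of them rational numbers in binary) to the encoding of a list of
rational start times, one for every job, which is a schedule and which cancels the minimum number
of paths among all (real-valued) schedules. -/
theorem result : ∃ A : List Bool → List Bool, PolyTime A ∧ ∀ I : Inst, Valid I →
    ∃ s : List ℚ, A (bits I) = bits s ∧ s.length = I.jobs.length ∧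
      IsSchedule I (fun i => ((s.getD i 0 : ℚ) : ℝ)) ∧
      ∀ s' : Fin I.jobs.length → ℝ, IsSchedule I s' →
        (cancelled I (fun i => ((s.getD i 0 : ℚ) : ℝ))).length ≤ (cancelled I s').length := by
  refine ⟨fun x => bits ((unbits Inst x).elim [] sol), ?_, fun I hI => ?_⟩
  · apply polyTime_bits
    refine NPC.Poly.optElim (o := fun x => unbits Inst x) (h := fun _ I => sol I) poly_unbits
      (NPC.Poly.const []) ?_
    exact poly_sol.comp (NPC.Poly.snd NPC.Poly.id)
  · refine ⟨sol I, ?_, sol_length I, sol_schedule hI, sol_optimal hI⟩
    simp only [unbits_bits, Option.elim]

end Pool.Agent.Results.MP_2ca8f5_lc.UnevenSpacingPolyTime
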